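import Pool.Agent.V11307.RI.Neg

set_option autoImplicit false

/-!
# Sign and integrality of `∑_{k<n} (28k+3) M_k (-12288)^(n-1-k) / (2n (2n+1) C(2n,n))`
-/

namespace Pool.Agent.Results.MP_14414a_nt.Full

open Finset Nat

/-- `M_k = (4k)!/(k!)^4` -/
def M (k : ℕ) : ℚ := ((4 * k)! : ℚ) / (k ! : ℚ) ^ 4

/-- `∑_{k=0}^{n-1} (28k+3) M_k (-12288)^{n-1-k}` -/
def S (n : ℕ) : ℚ := ∑ k ∈ range n, (28 * (k : ℚ) + 3) * M k * (-12288) ^ (n - 1 - k)

/-- `a_n` -/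
def a (n : ℕ) : ℚ := 1 / (2 * (n : ℚ) * (2 * n + 1) * ((2 * n).choose n : ℚ)) * S n

open V11307.RI

/-- the integer sums -/
def Z (n : ℕ) : ℤ := ∑ k ∈ range n, (28 * (k : ℤ) + 3) * c4 k * (-12288) ^ (n - 1 - k)

theorem S_Z (n : ℕ) : S n = (Z n : ℚ) := by
  unfold S Z M
  push_cast
  exact sum_congr rfl fun k _ => by rw [c4_eq]

theorem Z_succ (n : ℕ) : Z (n + 1) = -12288 * Z n + (28 * (n : ℤ) + 3) * c4 n := by
  rw [Z, sum_range_succ, Z, mul_sum]
  congr 1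
  · refine sum_congr rfl fun k hk => ?_
    rw [mem_range] at hk
    have : n + 1 - 1 - k = (n - 1 - k) + 1 := by omega
    rw [this, pow_succ]
    ring
  · simp

/-! ### the WZ identity -/

def g (n j : ℕ) : ℚ := (-1) ^ n / 12 * ((2 * n + 1) * ((2 * n).choose n : ℚ)) * (16 / 3) ^ j *
  cb (2 * n + 1 - j) * Hq (2 * n + 1) (n + 1 + j)

def F (n j : ℕ) : ℚ := (28 * (n : ℚ) ^ 2 - 18 * n * j + 17 * n + 2 * j ^ 2 - 4 * j + 3 / 2) *
  (-1) ^ n * ((2 * n).choose n : ℚ) * (16 / 3) ^ j * cb (2 * n + 1 - j) / (4 * n - 2 * j + 1) * Hq (2 * n) (n + j)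

theorem odd_ne (x : ℤ) : (2 * (x : ℚ) + 1) ≠ 0 := by
  have : 2 * x + 1 ≠ 0 := by omega
  exact_mod_cast this

theorem wz (n j : ℕ) : g (n + 1) j - (-12288) * g n j = F (n + 1) j - F (n + 1) (j + 1) := by
  obtain ⟨x, hx⟩ : ∃ x : ℤ, x = 2 * n + 1 - j := ⟨_, rfl⟩
  have hxq : (j : ℚ) = 2 * n + 1 - x := by rw [hx]; push_cast; ring
  have c0 : cb (2 * (n : ℕ) + 1 - (j : ℕ)) = cb x := by rw [hx]
  have c1 : cb (2 * ((n + 1 : ℕ) : ℤ) + 1 - ((j + 1 : ℕ) : ℤ)) = cb (x + 1) := by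
    rw [hx]; congr 1; push_cast; ring
  have c2 : cb (2 * ((n + 1 : ℕ) : ℤ) + 1 - (j : ℤ)) = cb (x + 1 + 1) := by
    rw [hx]; congr 1; push_cast; ring
  have o1 := odd_ne x
  have o2 := odd_ne (x + 1)
  have s1 := cb_succ x
  have s2 := cb_succ (x + 1)
  push_cast at s2 o2
  have hn : ((n : ℚ) + 1) ≠ 0 := by positivity
  have hn2 : (2 * (n : ℚ) + 3) ≠ 0 := by positivity
  have hn4 : (2 * (n : ℚ) + 2) ≠ 0 := by positivity
  have hc : ((2 * (n + 1)).choose (n + 1) : ℚ) = 2 * (2 * n + 1) * ((2 * n).choose n : ℚ) / (n + 1) := by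
    rw [eq_div_iff hn]
    have := central n
    have h' : (((n + 1) * (2 * (n + 1)).choose (n + 1) : ℕ) : ℚ) = ((2 * (2 * n + 1) * (2 * n).choose n : ℕ) : ℚ) := by
      rw [this]
    push_cast at h'
    linear_combination h'
  have H1 : Hq (2 * (n + 1)) (n + 1 + j) = Hq (2 * n + 1) (n + 1 + j) * (2 * (2 * j - 2 * n - 1)) / (2 * n + 2) := by
    rw [show 2 * (n + 1) = 2 * n + 1 + 1 by ring, Hq_succ]
    push_cast
    congr 1
    · ring
    · ring
  have H2 : Hq (2 * (n + 1)) (n + 1 + (j + 1)) = Hq (2 * n + 1) (n + 1 + j) * (2 * (2 * n + 2 * j + 3)) / (2 * n + 2) := by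
    rw [show 2 * (n + 1) = 2 * n + 1 + 1 by ring, show n + 1 + (j + 1) = n + 1 + j + 1 by ring, Hq_succ']
    push_cast
    congr 1
    · ring
    · ring
  have H3 : Hq (2 * (n + 1) + 1) (n + 1 + 1 + j) =
      Hq (2 * n + 1) (n + 1 + j) * (2 * (2 * j - 2 * n - 1)) / (2 * n + 2) * (2 * (2 * n + 2 * j + 3)) / (2 * n + 3) := by
    rw [show n + 1 + 1 + j = n + 1 + j + 1 by ring, Hq_succ', H1]
    push_cast
    congr 1
    · ring
    · ring
  unfold g F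
  rw [c0, c1, c2, H1, H2, H3, hc]
  have e1 : cb (x + 1) = (x + 2) * cb (x + 1 + 1) / (2 * (2 * (x + 1) + 1)) := by
    rw [eq_div_iff (mul_ne_zero two_ne_zero o2)]
    linear_combination -s2
  have e0 : cb x = (x + 1) * cb (x + 1) / (2 * (2 * x + 1)) := by
    rw [eq_div_iff (mul_ne_zero two_ne_zero o1)]
    linear_combination -s1
  rw [e0, e1]
  push_cast
  rw [hxq]
  have d1 : (4 * ((n : ℚ) + 1) - 2 * (2 * n + 1 - x) + 1) = 2 * (x + 1) + 1 := by ring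
  have d2 : (4 * ((n : ℚ) + 1) - 2 * (2 * n + 1 - x + 1) + 1) = 2 * x + 1 := by ring
  rw [d1, d2]
  generalize cb (x + 1 + 1) = X
  generalize Hq (2 * n + 1) (n + 1 + j) = Y
  generalize ((2 * n).choose n : ℚ) = C
  rw [pow_succ, pow_succ]
  field_simp
  ring

theorem F_zero (n : ℕ) : F n 0 = (28 * (n : ℚ) + 3) * c4 n := by
  have h1 : Hq (2 * n) n = (-1) ^ n * ((2 * n).choose n : ℚ) := by
    induction n with
    | zero => simp [Hq_zero]
    | succ n ih =>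
      have hn : ((n : ℚ) + 1) ≠ 0 := by positivity
      have hn2 : (2 * (n : ℚ) + 1) ≠ 0 := by positivity
      have hn3 : (2 * (n : ℚ) + 1 + 1) ≠ 0 := by positivity
      rw [show 2 * (n + 1) = 2 * n + 1 + 1 by ring, Hq_succ', Hq_succ, ih]
      have hc : ((2 * n + 1 + 1).choose (n + 1) : ℚ) = 2 * (2 * n + 1) * ((2 * n).choose n : ℚ) / (n + 1) := by
        rw [eq_div_iff hn]
        have := central n
        have h' : (((n + 1) * (2 * (n + 1)).choose (n + 1) : ℕ) : ℚ) =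
            ((2 * (2 * n + 1) * (2 * n).choose n : ℕ) : ℚ) := by rw [this]
        push_cast at h'
        linear_combination h'
      rw [hc, pow_succ]
      push_cast
      field_simp
      ring
  unfold F
  have h2 := cb_succ (2 * n)
  have h3 : cb (2 * n) = ((4 * n).choose (2 * n) : ℚ) := by
    have := cb_nat (2 * n)
    rw [show 2 * (2 * n) = 4 * n by ring] at this
    push_cast at this
    exact this
  rw [Nat.add_zero, h1, show (2 * (n : ℤ) + 1 - ((0 : ℕ) : ℤ)) = 2 * (n : ℤ) + 1 by simp]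
  have h4 : cb (2 * (n : ℤ) + 1) = 2 * (2 * (2 * n) + 1) * ((4 * n).choose (2 * n) : ℚ) / (2 * n + 1) := by
    rw [eq_div_iff (by positivity), ← h3]
    push_cast at h2
    linear_combination h2
  rw [h4]
  have hn4 : (4 * (n : ℚ) + 1) ≠ 0 := by positivity
  have hn2 : (2 * (n : ℚ) + 1) ≠ 0 := by positivity
  have hs : ((-1 : ℚ) ^ n) * (-1) ^ n = 1 := by rw [← mul_pow]; norm_num
  unfold c4
  push_cast
  rw [show (4 * (n : ℚ) - 2 * 0 + 1) = 4 * n + 1 by ring]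
  generalize ((-1 : ℚ) ^ n) = s at *
  field_simp
  linear_combination (28 * (n : ℚ) ^ 2 * 2 + 17 * n * 2 + 3) * (2 * (2 * n) + 1) *
    ((2 * n).choose n : ℚ) ^ 2 * ((4 * n).choose (2 * n) : ℚ) * hs

theorem S_eq (n : ℕ) : S (n + 1) = ∑ j ∈ range (2 * n + 2), g n j := by
  refine closedL (m := -12288) (F := F) (w := fun n => (28 * (n : ℚ) + 3) * c4 n) (fun n => 2 * n + 2)
    (fun n => by omega) wz (fun n => ?_) (fun n => ?_) (fun n => ?_) (fun n j hj => ?_) ?_ n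
  · rw [S_Z, S_Z, Z_succ]; push_cast; ring
  · rw [F_zero]
  · unfold F
    rw [cb_neg (by push_cast; omega)]
    simp
  · unfold g
    rw [cb_neg (by omega)]
    simp
  · have e : S 1 = 3 := by norm_num [S, M, Nat.factorial]
    have q : cb 1 = 2 := by
      have := cb_nat 1
      norm_num at this ⊢
      exact this
    have q0 : cb 0 = 1 := by
      have := cb_nat 0
      norm_num at this ⊢
      exact this
    rw [e]
    norm_num [sum_range_succ, g, Hq, q, q0]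

theorem six (n : ℕ) : ∃ e : ℕ, (2 * (n : ℤ) + 1) * ((2 * n).choose n : ℤ) ∣ 6 ^ e * Z (n + 1) := by
  choose z hz using cb_int
  have h : 12 * 3 ^ (2 * n + 1) * (Z (n + 1) : ℚ) = (2 * (n : ℚ) + 1) * ((2 * n).choose n : ℚ) *
      ((∑ j ∈ range (2 * n + 2), (-1) ^ n * 16 ^ j * 3 ^ (2 * n + 1 - j) * z (2 * n + 1 - j) *
        Hz (2 * n + 1) (n + 1 + j) : ℤ) : ℚ) := by
    rw [← S_Z, S_eq]
    push_cast
    rw [mul_sum, mul_sum]
    refine sum_congr rfl fun j hj => ?_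
    rw [mem_range] at hj
    unfold g
    rw [hz, Hz_eq, div_pow]
    have e3 : (3 : ℚ) ^ (2 * n + 1) = 3 ^ j * 3 ^ (2 * n + 1 - j) := by
      rw [← pow_add]; congr 1; omega
    rw [e3]
    have : (3 : ℚ) ^ j ≠ 0 := by positivity
    field_simp
  have h' : 12 * 3 ^ (2 * n + 1) * Z (n + 1) = (2 * (n : ℤ) + 1) * ((2 * n).choose n : ℤ) *
      (∑ j ∈ range (2 * n + 2), (-1) ^ n * 16 ^ j * 3 ^ (2 * n + 1 - j) * z (2 * n + 1 - j) *
        Hz (2 * n + 1) (n + 1 + j)) := by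
    exact_mod_cast h
  refine ⟨2 * n + 3, 3 * 2 ^ (2 * n + 1) * (∑ j ∈ range (2 * n + 2), (-1) ^ n * 16 ^ j * 3 ^ (2 * n + 1 - j) *
    z (2 * n + 1 - j) * Hz (2 * n + 1) (n + 1 + j)), ?_⟩
  have e6 : (6 : ℤ) ^ (2 * n + 3) = 3 * 2 ^ (2 * n + 1) * (12 * 3 ^ (2 * n + 1)) := by
    rw [show 2 * n + 3 = 2 * n + 1 + 2 by ring, pow_add,
      show (6 : ℤ) ^ (2 * n + 1) = 2 ^ (2 * n + 1) * 3 ^ (2 * n + 1) by rw [← mul_pow]; norm_num]
    ring
  rw [e6]
  linear_combination 3 * 2 ^ (2 * n + 1) * h'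

/-- integrality -/
theorem dvd_Z {n : ℕ} (hn : 1 ≤ n) : ((4 * D n : ℕ) : ℤ) ∣ Z (n + 1) := by
  obtain ⟨e, he⟩ := main4 (m := -12288) (a := 28) (b := 3) (α := 12) (by norm_num) (by norm_num) (S := Z)
    (by simp [Z]) Z_succ six hn
  have hv : padicValNat 3 (4 * D n) = padicValNat 3 (D n) := by
    rw [padicValNat.mul (by norm_num) (D_pos n).ne', padicValNat.eq_zero_of_not_dvd (by norm_num), zero_add]
  refine assemble (Nat.mul_ne_zero (by norm_num) (D_pos n).ne') he ?_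
  rw [hv]
  exact three_main_b good3_c4 (m := -12288) (a := 28) (b := 3) (by norm_num) (by norm_num) (S := Z)
    (by simp [Z]) Z_succ n

/-- weights -/
def W (k : ℕ) : ℚ := (28 * (k : ℚ) + 3) * c4 k

theorem W_le (k : ℕ) : W (k + 2) ≤ 480 * W (k + 1) := by
  have h := M_succ (k + 1)
  rw [M_mul, M_mul] at h
  change (c4 (k + 1 + 1) : ℚ) * _ = _ * (c4 (k + 1) : ℚ) at h
  have hp : (0 : ℚ) < c4 (k + 1) := by exact_mod_cast c4_pos (k + 1)
  have h3 : (0 : ℚ) < ((k : ℚ) + 2) ^ 3 := by positivity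
  unfold W
  push_cast at h ⊢
  have h4 : (c4 (k + 2) : ℚ) * ((k : ℚ) + 2) ^ 3 =
      8 * (2 * (k + 1) + 1) * (4 * (k + 1) + 1) * (4 * (k + 1) + 3) * c4 (k + 1) := by
    rw [← h, show k + 1 + 1 = k + 2 by ring]; ring
  rw [← mul_le_mul_iff_of_pos_right h3]
  have h5 : (28 * ((k : ℚ) + 2) + 3) * c4 (k + 2) * ((k : ℚ) + 2) ^ 3 =
      ((28 * ((k : ℚ) + 2) + 3) * (8 * (2 * (k + 1) + 1) * (4 * (k + 1) + 1) * (4 * (k + 1) + 3))) * c4 (k + 1) := by
    rw [mul_assoc, h4]; ring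
  rw [h5]
  have h6 : (28 * ((k : ℚ) + 2) + 3) * (8 * (2 * (k + 1) + 1) * (4 * (k + 1) + 1) * (4 * (k + 1) + 3)) ≤
      480 * (28 * (k + 1) + 3) * ((k : ℚ) + 2) ^ 3 := by
    have hk : (0 : ℚ) ≤ k := by positivity
    nlinarith [mul_nonneg hk hk, mul_nonneg hk (mul_nonneg hk hk), mul_nonneg (mul_nonneg hk hk) (mul_nonneg hk hk)]
  calc _ ≤ (480 * (28 * (k + 1) + 3) * ((k : ℚ) + 2) ^ 3) * c4 (k + 1) :=
        mul_le_mul_of_nonneg_right h6 hp.le
    _ = _ := by ring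

/-- **Full answer**: for every `n ≥ 2` the number `(-1)^{n-1} a_n` is a positive integer. -/
theorem result : ∀ n : ℕ, 2 ≤ n → ∃ z : ℤ, 0 < z ∧ (-1) ^ (n - 1) * a n = z := by
  intro n hn
  obtain ⟨K, rfl⟩ : ∃ K, n = K + 1 := ⟨n - 1, by omega⟩
  rw [Nat.add_sub_cancel]
  obtain ⟨z, hz⟩ := dvd_Z (n := K) (by omega)
  have hD : (0 : ℚ) < (D K : ℚ) := by exact_mod_cast D_pos K
  have h2 := D_q' K
  have h3 : 2 * ((K + 1 : ℕ) : ℚ) * (2 * ((K + 1 : ℕ) : ℚ) + 1) * ((2 * (K + 1)).choose (K + 1) : ℚ) =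
      4 * (D K : ℚ) := by linear_combination 2 * h2
  have hS : S (K + 1) = 4 * (D K : ℚ) * z := by
    rw [S_Z, hz]; push_cast; ring
  have ha : a (K + 1) = z := by
    rw [a, h3, hS]
    field_simp
  have hs := (sign_gen (S := S) (W := W) (m := 12288) (C := 480) (by norm_num)
    (fun n => by rw [S_Z, S_Z, Z_succ, W]; push_cast; ring)
    (fun n => by have : (0 : ℚ) < c4 n := by exact_mod_cast c4_pos n
                 unfold W; positivity)
    W_le (by norm_num) (by norm_num [S, M, Nat.factorial])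
    (by norm_num [W, c4, Nat.choose, S, M, Nat.factorial]) K).1
  refine ⟨(-1) ^ K * z, ?_, by rw [ha]; push_cast; ring⟩
  have h4 : (-1 : ℚ) ^ K * S (K + 1) = ((-1) ^ K * z) * (4 * (D K : ℚ)) := by rw [hS]; ring
  rw [h4] at hs
  have h5 : (0 : ℚ) < (-1) ^ K * z := (mul_pos_iff_of_pos_right (by positivity)).1 hs
  exact_mod_cast h5

end Pool.Agent.Results.MP_14414a_nt.Full
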